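import Pool.Agent.N848.LT.Stm2
import Pool.Agent.Y18.LC.Omega3
import Pool.Agent.Y944.LC.UNR

/-!
# Project LT, part MSQ (helper34): finite multiquadratic fields
-/

set_option autoImplicit false

namespace Pool.Agent.N34.LT

open NumberField IsDedekindDomain Module Pool.Agent.Y18.LC Pool.Agent.N848.LT

variable {Ω : Type} [Field Ω] [CharZero Ω]

/-- an automorphism of a composite is trivial if its restrictions to the factors are -/
lemma eq_one_of_fix (K M : IntermediateField ℚ Ω) (τ : ↥(K ⊔ M) ≃ₐ[ℚ] ↥(K ⊔ M))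
    (h1 : ∀ x : ↥(K ⊔ M), (x : Ω) ∈ K → τ x = x) (h2 : ∀ x : ↥(K ⊔ M), (x : Ω) ∈ M → τ x = x) :
    τ = 1 := by
  have h3 : K ⊔ M ≤ (IntermediateField.fixedField (Subgroup.zpowers τ)).map (K ⊔ M).val := by
    have hfix : ∀ x : ↥(K ⊔ M), τ x = x → x ∈ IntermediateField.fixedField (Subgroup.zpowers τ) := by
      intro x hx
      rw [IntermediateField.mem_fixedField_iff]
      intro f hf
      obtain ⟨n, rfl⟩ := Subgroup.mem_zpowers_iff.1 hf
      have h5 : τ ∈ MulAction.stabilizer (↥(K ⊔ M) ≃ₐ[ℚ] ↥(K ⊔ M)) x := by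
        rw [MulAction.mem_stabilizer_iff]
        exact hx
      have h6 := Subgroup.zpow_mem _ h5 n
      rw [MulAction.mem_stabilizer_iff] at h6
      exact h6
    apply sup_le
    · intro x hx
      exact ⟨⟨x, (le_sup_left : K ≤ K ⊔ M) hx⟩, hfix _ (h1 _ hx), rfl⟩
    · intro x hx
      exact ⟨⟨x, (le_sup_right : M ≤ K ⊔ M) hx⟩, hfix _ (h2 _ hx), rfl⟩
  ext y
  obtain ⟨z, hz, hzy⟩ := h3 y.2
  have h4 : z = y := Subtype.ext hzy
  rw [h4] at hz
  have h5 := (IntermediateField.mem_fixedField_iff _ _).1 hz τ (Subgroup.mem_zpowers τ)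
  exact congrArg Subtype.val h5

/-- if a relation holds in the automorphism group of a factor then it holds on this factor -/
lemma fix_of_restrict (K N : IntermediateField ℚ Ω) (hKN : K ≤ N) (hK : Normal ℚ K)
    (τ : N ≃ₐ[ℚ] N)
    (h : letI : Algebra K N := (IntermediateField.inclusion hKN).toRingHom.toAlgebra
      haveI : IsScalarTower ℚ K N := IsScalarTower.of_algebraMap_eq' rfl
      AlgEquiv.restrictNormalHom (F := ℚ) (K₁ := N) K τ = 1) :
    ∀ x : N, (x : Ω) ∈ K → τ x = x := by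
  letI : Algebra K N := (IntermediateField.inclusion hKN).toRingHom.toAlgebra
  haveI : IsScalarTower ℚ K N := IsScalarTower.of_algebraMap_eq' rfl
  intro x hx
  have h1 := AlgEquiv.restrictNormal_commutes τ K ⟨x, hx⟩
  have h2 : AlgEquiv.restrictNormal τ K = 1 := h
  rw [h2] at h1
  have h3 : algebraMap K N ⟨x, hx⟩ = x := rfl
  rw [h3] at h1
  rw [← h1]
  exact h3

/-- composites of elementary abelian extensions -/
lemma EA_sup {p : ℕ} {K M : IntermediateField ℚ Ω} (hK : EA p K) (hM : EA p M) :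
    EA p ↥(K ⊔ M) := by
  obtain ⟨k1, k2, k3⟩ := hK
  obtain ⟨m1, m2, m3⟩ := hM
  haveI nK : Normal ℚ K := k1.to_normal
  haveI nM : Normal ℚ M := m1.to_normal
  haveI n1 : Normal ℚ ↥(K ⊔ M) := by
    have n2 := @IntermediateField.normal_sup ℚ Ω _ _ _ K M
      (by convert nK; exact Subsingleton.elim _ _) (by convert nM; exact Subsingleton.elim _ _)
    convert n2
    exact Subsingleton.elim _ _
  have hg : IsGalois ℚ ↥(K ⊔ M) := { to_isSeparable := inferInstance, to_normal := n1 }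
  refine ⟨hg, fun g h => ?_, fun g => ?_⟩
  · have h1 : (h * g)⁻¹ * (g * h) = 1 := by
      refine eq_one_of_fix K M _ (fix_of_restrict K _ le_sup_left nK _ ?_)
        (fix_of_restrict M _ le_sup_right nM _ ?_)
      · rw [map_mul, map_inv, map_mul, map_mul]
        exact inv_mul_eq_one.2 (k2 _ _)
      · rw [map_mul, map_inv, map_mul, map_mul]
        exact inv_mul_eq_one.2 (m2 _ _)
    rw [inv_mul_eq_one] at h1
    exact h1.symm
  · refine eq_one_of_fix K M _ (fix_of_restrict K _ le_sup_left nK _ ?_)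
      (fix_of_restrict M _ le_sup_right nM _ ?_)
    · rw [map_pow, k3]
    · rw [map_pow, m3]

lemma EA_rat' (p : ℕ) : EA p ℚ := by
  have h1 : ∀ g : ℚ ≃ₐ[ℚ] ℚ, g = 1 := fun g => Subsingleton.elim _ _
  refine ⟨inferInstance, fun g h => ?_, fun g => ?_⟩
  · rw [h1 g, h1 h]
  · rw [h1 g, one_pow]

/-- primes are unramified in the field of rational numbers -/
lemma unram_rat {q : ℕ} (hq : q.Prime) : (Ideal.span {(q : 𝓞 ℚ)}).IsRadical := by
  intro x hx
  obtain ⟨n, hn⟩ := hx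
  rw [Ideal.mem_span_singleton] at hn ⊢
  have h1 := map_dvd Rat.ringOfIntegersEquiv hn
  rw [map_natCast, map_pow] at h1
  have h2 := (Nat.prime_iff_prime_int.1 hq).dvd_of_dvd_pow h1
  have h3 := map_dvd Rat.ringOfIntegersEquiv.symm h2
  rwa [map_natCast, RingEquiv.symm_apply_apply] at h3

lemma unram_bot {q : ℕ} (hq : q.Prime) :
    (Ideal.span {(q : 𝓞 (⊥ : IntermediateField ℚ Ω))}).IsRadical :=
  unram_of_hom (IntermediateField.botEquiv ℚ Ω).toRingEquiv.toRingHom hq.ne_zero (unram_rat hq)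

/-- composites of unramified extensions -/
lemma unram_sup {K M : IntermediateField ℚ Ω} (hK : FiniteDimensional ℚ K)
    (hM : FiniteDimensional ℚ M) (hMg : IsGalois ℚ M) {q : ℕ} (hq : q.Prime)
    (h1 : (Ideal.span {(q : 𝓞 K)}).IsRadical) (h2 : (Ideal.span {(q : 𝓞 M)}).IsRadical) :
    (Ideal.span {(q : 𝓞 ↥(K ⊔ M))}).IsRadical := by
  have hnfK : NumberField K := nf_of K hK
  have hnf : NumberField ↥(K ⊔ M) := nf_of _ inferInstance
  set ι : ↥(K ⊔ M) →+* Ω := algebraMap _ Ω with hι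
  have hs : ∀ x ∈ K ⊔ M, ∃ y : ↥(K ⊔ M), ι y = x := fun x hx => ⟨⟨x, hx⟩, rfl⟩
  have hs' : ∀ y : ↥(K ⊔ M), ι y ∈ K ⊔ M := fun y => y.2
  letI alg1 : Algebra K ↥(K ⊔ M) :=
    (IntermediateField.inclusion (le_sup_left : K ≤ K ⊔ M)).toRingHom.toAlgebra
  have hsk : ∀ x ∈ K, ∃ z : K, ι (algebraMap K ↥(K ⊔ M) z) = x := fun x hx => ⟨⟨x, hx⟩, rfl⟩
  have htop : IntermediateField.adjoin K (cm ι M : Set ↥(K ⊔ M)) = ⊤ :=
    adjoin_top' ι K M hs hs' K hsk
  have hMs : ∀ x ∈ M, ∃ y : ↥(K ⊔ M), ι y = x := fun x hx => hs x ((le_sup_right : M ≤ K ⊔ M) hx)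
  have hG : IsGalois ℚ (cm ι M) := IsGalois.of_algEquiv (ratE (cmE ι M hMs).symm)
  exact Pool.Agent.Y944.LC.unr K ↥(K ⊔ M) (cm ι M) hG htop q hq (unram_cm ι M hMs hq.ne_zero h2) h1

theorem t_MSQ (h : S_QDR) : S_MSQ := by
  classical
  intro Ω _ _ S
  have key : ∀ S : Finset Ω, (∀ s ∈ S, ∃ t : ℤ, s ^ 2 = (t : Ω)) →
      EA 2 (IntermediateField.adjoin ℚ (S : Set Ω)) ∧
      FiniteDimensional ℚ (IntermediateField.adjoin ℚ (S : Set Ω)) ∧
      ∀ q : ℕ, q.Prime → (∀ s ∈ S, ∃ t : ℤ, s ^ 2 = (t : Ω) ∧ ¬ (q : ℤ) ∣ 2 * t) →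
        (Ideal.span {(q : 𝓞 (IntermediateField.adjoin ℚ (S : Set Ω)))}).IsRadical := by
    intro S
    induction S using Finset.induction_on with
    | empty =>
      intro _
      rw [Finset.coe_empty, IntermediateField.adjoin_empty]
      exact ⟨(EA_rat' 2).congr (IntermediateField.botEquiv ℚ Ω).symm.toRingEquiv,
        inferInstance, fun q hq _ => unram_bot hq⟩
    | insert s S hs ih =>
      intro hS
      obtain ⟨i1, i2, i3⟩ := ih fun x hx => hS x (Finset.mem_insert_of_mem hx)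
      obtain ⟨t, ht⟩ := hS s (Finset.mem_insert_self s S)
      obtain ⟨j1, j2, -⟩ := h Ω s t ht
      have hins : IntermediateField.adjoin ℚ ((insert s S : Finset Ω) : Set Ω) =
          IntermediateField.adjoin ℚ {s} ⊔ IntermediateField.adjoin ℚ (S : Set Ω) := by
        rw [Finset.coe_insert, Set.insert_eq, IntermediateField.adjoin_union]
      rw [hins]
      refine ⟨EA_sup j1 i1, inferInstance, fun q hq hall => ?_⟩
      obtain ⟨t', ht', hqt'⟩ := hall s (Finset.mem_insert_self s S)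
      exact unram_sup j2 i2 i1.1 hq ((h Ω s t' ht').2.2 q hq hqt')
        (i3 q hq fun x hx => hall x (Finset.mem_insert_of_mem hx))
  intro hS
  exact ⟨(key S hS).1, (key S hS).2.2⟩

end Pool.Agent.N34.LT

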